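import Pool.Agent.Run7.h872.WD.Defs

/-!
Project WD (helper872), piece CNT, second copy (helper59).
-/

set_option autoImplicit false

namespace Pool.Agent.Run7.h59.WD

open Finset Pool.Agent.Run7.h872.WD

section char
variable {K : Type} [Field K] [Fintype K] [Algebra (ZMod 2) K]

lemma zmod2_cases (a : ZMod 2) : a = 0 ∨ a = 1 := by
  revert a; decide

lemma psi_zero : psi (0 : K) = 1 := by simp [psi]

lemma psi_add (x y : K) : psi (x + y) = psi x * psi y := by
  unfold psi
  rw [map_add]
  rcases zmod2_cases (Algebra.trace (ZMod 2) K x) with h | h <;>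
  rcases zmod2_cases (Algebra.trace (ZMod 2) K y) with h' | h' <;> rw [h, h'] <;> simp
  · decide

lemma psi_sum {ι : Type*} (s : Finset ι) (g : ι → K) :
    psi (∑ i ∈ s, g i) = ∏ i ∈ s, psi (g i) := by
  classical
  induction s using Finset.induction_on with
  | empty => simp [psi_zero]
  | insert a s ha ih => rw [Finset.sum_insert ha, Finset.prod_insert ha, psi_add, ih]

lemma psi_cases (x : K) : psi x = 1 ∨ psi x = -1 := by
  unfold psi; split_ifs <;> simp

lemma exists_psi_neg : ∃ x : K, psi x = -1 := by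
  have h := Algebra.trace_ne_zero (ZMod 2) K
  have : ∃ x : K, Algebra.trace (ZMod 2) K x ≠ 0 := by
    by_contra hc
    push Not at hc
    apply h
    ext x
    simpa using hc x
  obtain ⟨x, hx⟩ := this
  exact ⟨x, by simp [psi, hx]⟩

lemma sum_psi_mul [DecidableEq K] (z : K) :
    ∑ a : K, psi (a * z) = if z = 0 then (Fintype.card K : ℚ) else 0 := by
  split_ifs with hz
  · simp [hz, psi_zero]
  · obtain ⟨x, hx⟩ := exists_psi_neg (K := K)
    have h1 : ∑ a : K, psi (a * z) = ∑ a : K, psi ((a + x * z⁻¹) * z) :=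
      (Fintype.sum_equiv (Equiv.addRight (x * z⁻¹)) _ _ (fun a => by simp)).symm
    have h2 : ∀ a : K, psi ((a + x * z⁻¹) * z) = - psi (a * z) := by
      intro a
      rw [add_mul, mul_assoc, inv_mul_cancel₀ hz, mul_one, psi_add, hx]; ring
    rw [Finset.sum_congr rfl (fun a _ => h2 a), Finset.sum_neg_distrib] at h1
    linarith

lemma sum_psi_three [DecidableEq K] (z1 z2 z3 : K) :
    ∑ v : K × K × K, psi (v.1 * z1 + v.2.1 * z2 + v.2.2 * z3) =
      if z1 = 0 ∧ z2 = 0 ∧ z3 = 0 then (Fintype.card K : ℚ) ^ 3 else 0 := by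
  have h : ∀ v : K × K × K, psi (v.1 * z1 + v.2.1 * z2 + v.2.2 * z3) =
      psi (v.1 * z1) * (psi (v.2.1 * z2) * psi (v.2.2 * z3)) := by
    intro v; rw [psi_add, psi_add]; ring
  rw [Finset.sum_congr rfl (fun v _ => h v), Fintype.sum_prod_type]
  simp only [Fintype.sum_prod_type]
  have : ∀ a : K, ∑ b : K, ∑ c : K, psi (a * z1) * (psi (b * z2) * psi (c * z3)) =
      psi (a * z1) * ((∑ b : K, psi (b * z2)) * ∑ c : K, psi (c * z3)) := by
    intro a
    rw [Finset.sum_mul_sum, Finset.mul_sum]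
    refine Finset.sum_congr rfl fun b _ => ?_
    rw [Finset.mul_sum]
  rw [Finset.sum_congr rfl (fun a _ => this a), ← Finset.sum_mul, sum_psi_mul, sum_psi_mul, sum_psi_mul]
  by_cases h1 : z1 = 0 <;> by_cases h2 : z2 = 0 <;> by_cases h3 : z3 = 0 <;> simp [h1, h2, h3]
  ring

end char

section count
open Polynomial

/-- sum over words of weight `w`. -/
lemma sum_weight {N w : ℕ} (h : Fin N → ℚ) :
    ∑ c : Fin N → ZMod 2, (if hammingNorm c = w then ∏ j, (if c j = 0 then 1 else h j) else 0) =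
      (∏ j, ((1 : ℚ[X]) + C (h j) * X)).coeff w := by
  have h1 : (∏ j, ((1 : ℚ[X]) + C (h j) * X)) =
      ∑ c : Fin N → ZMod 2, ∏ j, (if c j = 0 then (1 : ℚ[X]) else C (h j) * X) := by
    have h2 : ∀ j, ((1 : ℚ[X]) + C (h j) * X) =
        ∑ b : ZMod 2, (if b = 0 then (1 : ℚ[X]) else C (h j) * X) := by
      intro j
      have : (Finset.univ : Finset (ZMod 2)) = {0, 1} := by decide
      rw [this, Finset.sum_pair (by decide)]
      simp
    rw [Finset.prod_congr rfl (fun j _ => h2 j), Finset.prod_univ_sum, Fintype.piFinset_univ]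
  rw [h1, Polynomial.finset_sum_coeff]
  refine Finset.sum_congr rfl fun c _ => ?_
  have h3 : ∏ j, (if c j = 0 then (1 : ℚ[X]) else C (h j) * X) =
      C (∏ j, (if c j = 0 then 1 else h j)) * X ^ (hammingNorm c) := by
    have h4 : ∀ j, (if c j = 0 then (1 : ℚ[X]) else C (h j) * X) =
        C (if c j = 0 then 1 else h j) * (if c j ≠ 0 then X else 1) := by
      intro j; by_cases hj : c j = 0 <;> simp [hj]
    rw [Finset.prod_congr rfl (fun j _ => h4 j), Finset.prod_mul_distrib, map_prod]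
    congr 1
    rw [← Finset.prod_filter, Finset.prod_const]
    rfl
  rw [h3, Polynomial.coeff_C_mul_X_pow]
  by_cases hc : hammingNorm c = w
  · simp [hc]
  · simp [hc, Ne.symm hc]

lemma prod_eq {N m : ℕ} (h : Fin N → ℚ) (hh : ∀ j, h j = 1 ∨ h j = -1)
    (hm : ∑ j, h j = (N : ℚ) - 2 * m) :
    (∏ j, ((1 : ℚ[X]) + C (h j) * X)) = (1 - X) ^ m * (1 + X) ^ (N - m) := by
  classical
  set A := Finset.univ.filter (fun j => h j = -1) with hA
  have hs : ∑ j, h j = (N : ℚ) - 2 * A.card := by
    rw [← Finset.sum_filter_add_sum_filter_not Finset.univ (fun j => h j = -1)]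
    have e1 : ∑ j ∈ Finset.univ.filter (fun j => h j = -1), h j = -(A.card : ℚ) := by
      rw [Finset.sum_congr rfl (g := fun _ => (-1 : ℚ)) (fun j hj => (Finset.mem_filter.1 hj).2)]
      simp [hA]
    have e2 : ∑ j ∈ Finset.univ.filter (fun j => ¬ h j = -1), h j = (N : ℚ) - A.card := by
      rw [Finset.sum_congr rfl (g := fun _ => (1 : ℚ))
        (fun j hj => (hh j).resolve_right (Finset.mem_filter.1 hj).2)]
      have := Finset.card_filter_add_card_filter_not (s := (Finset.univ : Finset (Fin N))) (fun j => h j = -1)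
      rw [Finset.card_univ, Fintype.card_fin] at this
      have h' : ((A.card : ℚ) + ((Finset.univ.filter (fun j => ¬ h j = -1)).card : ℚ)) = N := by
        exact_mod_cast this
      simp only [Finset.sum_const, nsmul_eq_mul, mul_one]
      linarith
    rw [e1, e2]; ring
  have hAm : A.card = m := by
    have : (A.card : ℚ) = m := by linarith
    exact_mod_cast this
  have hc : (Finset.univ.filter (fun j => ¬ h j = -1)).card = N - m := by
    have := Finset.card_filter_add_card_filter_not (s := (Finset.univ : Finset (Fin N))) (fun j => h j = -1)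
    rw [Finset.card_univ, Fintype.card_fin] at this
    change A.card + _ = N at this
    omega
  rw [← Finset.prod_filter_mul_prod_filter_not Finset.univ (fun j => h j = -1)]
  have e1 : ∏ j ∈ Finset.univ.filter (fun j => h j = -1), ((1 : ℚ[X]) + C (h j) * X) = (1 - X) ^ m := by
    rw [Finset.prod_congr rfl (g := fun _ => (1 - X : ℚ[X]))
      (fun j hj => by rw [(Finset.mem_filter.1 hj).2]; simp [sub_eq_add_neg]), Finset.prod_const]
    change _ ^ A.card = _
    rw [hAm]
  have e2 : ∏ j ∈ Finset.univ.filter (fun j => ¬ h j = -1), ((1 : ℚ[X]) + C (h j) * X) =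
      (1 + X) ^ (N - m) := by
    rw [Finset.prod_congr rfl (g := fun _ => (1 + X : ℚ[X]))
      (fun j hj => by rw [(hh j).resolve_right (Finset.mem_filter.1 hj).2]; simp), Finset.prod_const, hc]
  rw [e1, e2]

end count

section main
variable {K : Type} [Field K] [Fintype K] [Algebra (ZMod 2) K]

/-- The nonzero elements are the powers of `α`. -/
lemma sum_pow [DecidableEq K] {N : ℕ} (hq : Fintype.card K = N + 1) (α : K) (hα : orderOf α = N)
    (hN : 1 ≤ N) (g : K → ℚ) : ∑ x : K, g x = g 0 + ∑ j : Fin N, g (α ^ (j : ℕ)) := by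
  have hα0 : α ≠ 0 := by
    rintro rfl
    have : orderOf (0 : K) = 0 := by
      rw [orderOf_eq_zero_iff']
      intro n hn
      rw [zero_pow hn.ne']
      exact zero_ne_one
    omega
  have hinj : Function.Injective (fun j : Fin N => α ^ (j : ℕ)) := by
    intro i j hij
    have := pow_injOn_Iio_orderOf (x := α) (by simp [hα, i.2] : (i : ℕ) ∈ Set.Iio (orderOf α))
      (by simp [hα, j.2] : (j : ℕ) ∈ Set.Iio (orderOf α)) hij
    exact Fin.ext this
  have himg : Finset.univ.image (fun j : Fin N => α ^ (j : ℕ)) = Finset.univ.erase 0 := by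
    apply Finset.eq_of_subset_of_card_le
    · intro x hx
      obtain ⟨j, -, rfl⟩ := Finset.mem_image.1 hx
      exact Finset.mem_erase.2 ⟨pow_ne_zero _ hα0, Finset.mem_univ _⟩
    · rw [Finset.card_image_of_injective _ hinj, Finset.card_erase_of_mem (Finset.mem_univ _),
        Finset.card_univ, Finset.card_univ, Fintype.card_fin, hq]
      omega
  rw [← Finset.add_sum_erase _ _ (Finset.mem_univ (0 : K)), ← himg,
    Finset.sum_image (fun i _ j _ h => hinj h)]

end main

theorem t_CNT : S_CNT := by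
  intro t w ht
  set N := 2 ^ (2 * t + 1) - 1 with hN
  have hq1 : 1 ≤ N := by
    have : 2 ^ 1 ≤ 2 ^ (2 * t + 1) := Nat.pow_le_pow_right (by norm_num) (by omega)
    omega
  have hqN : 2 ^ (2 * t + 1) = N + 1 := by
    have : 0 < 2 ^ (2 * t + 1) := by positivity
    omega
  refine ⟨fun s => ((1 - Polynomial.X : Polynomial ℚ) ^ ⌊((N : ℚ) + 1 - s) / 2⌋₊ *
    (1 + Polynomial.X) ^ (N - ⌊((N : ℚ) + 1 - s) / 2⌋₊)).coeff w, ?_⟩
  intro K _ _ _ hK α hα e f he hf
  classical
  set F : K × K × K → K → K := fun v x => v.1 * x + v.2.1 * x ^ e + v.2.2 * x ^ f with hF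
  have hKN : Fintype.card K = N + 1 := by rw [hK, hqN]
  have hKQ : ((2 : ℚ) ^ (2 * t + 1)) = (Fintype.card K : ℚ) := by rw [hK]; push_cast; rfl
  -- the moment of each v
  have key : ∀ v : K × K × K,
      ((1 - Polynomial.X : Polynomial ℚ) ^ ⌊((N : ℚ) + 1 - S e f v) / 2⌋₊ *
        (1 + Polynomial.X) ^ (N - ⌊((N : ℚ) + 1 - S e f v) / 2⌋₊)).coeff w =
      ∑ c : Fin N → ZMod 2, (if hammingNorm c = w then
        psi (∑ j, algebraMap (ZMod 2) K (c j) * F v (α ^ (j : ℕ))) else 0) := by
    intro v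
    set h : Fin N → ℚ := fun j => psi (F v (α ^ (j : ℕ))) with hh
    have hS : S e f v = 1 + ∑ j, h j := by
      unfold S
      rw [sum_pow hKN α hα hq1]
      congr 1
      simp [show e ≠ 0 by omega, show f ≠ 0 by omega, psi_zero]
    have hpm : ∀ j, h j = 1 ∨ h j = -1 := fun j => psi_cases _
    -- number of -1
    obtain ⟨m, hm⟩ : ∃ m : ℕ, ∑ j, h j = (N : ℚ) - 2 * m := by
      refine ⟨(Finset.univ.filter (fun j => h j = -1)).card, ?_⟩
      have h0 : ∀ j, h j = 1 - 2 * (if h j = -1 then 1 else 0) := by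
        intro j; rcases hpm j with h1 | h1 <;> rw [h1] <;> norm_num
      rw [Finset.sum_congr rfl (fun j _ => h0 j), Finset.sum_sub_distrib, ← Finset.mul_sum,
        Finset.sum_boole]
      simp
    have hfl : ⌊((N : ℚ) + 1 - S e f v) / 2⌋₊ = m := by
      rw [hS, hm, show ((N : ℚ) + 1 - (1 + ((N : ℚ) - 2 * m))) / 2 = (m : ℚ) by ring]
      exact Nat.floor_natCast m
    rw [hfl, ← prod_eq h hpm hm, ← sum_weight]
    refine Finset.sum_congr rfl fun c _ => ?_
    congr 1
    rw [psi_sum]
    refine Finset.prod_congr rfl fun j _ => ?_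
    rcases zmod2_cases (c j) with h1 | h1 <;> rw [h1] <;> simp [psi_zero, hh]
  rw [Finset.sum_congr rfl (fun v _ => key v), Finset.sum_comm]
  have h5 : ∀ c : Fin N → ZMod 2, ∑ v : K × K × K, (if hammingNorm c = w then
        psi (∑ j, algebraMap (ZMod 2) K (c j) * F v (α ^ (j : ℕ))) else 0) =
      (Fintype.card K : ℚ) ^ 3 * (if ((∑ j, algebraMap (ZMod 2) K (c j) * α ^ (j : ℕ) = 0) ∧
    (∑ j, algebraMap (ZMod 2) K (c j) * (α ^ e) ^ (j : ℕ) = 0) ∧
    (∑ j, algebraMap (ZMod 2) K (c j) * (α ^ f) ^ (j : ℕ) = 0) ∧ hammingNorm c = w) then 1 else 0) := by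
    intro c
    by_cases hw : hammingNorm c = w
    · simp only [hw, if_true, and_true]
      have h6 : ∀ v : K × K × K, ∑ j, algebraMap (ZMod 2) K (c j) * F v (α ^ (j : ℕ)) =
          v.1 * (∑ j, algebraMap (ZMod 2) K (c j) * α ^ (j : ℕ)) +
          v.2.1 * (∑ j, algebraMap (ZMod 2) K (c j) * (α ^ e) ^ (j : ℕ)) +
          v.2.2 * (∑ j, algebraMap (ZMod 2) K (c j) * (α ^ f) ^ (j : ℕ)) := by
        intro v
        rw [Finset.mul_sum, Finset.mul_sum, Finset.mul_sum, ← Finset.sum_add_distrib,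
          ← Finset.sum_add_distrib]
        refine Finset.sum_congr rfl fun j _ => ?_
        simp only [hF]
        rw [← pow_mul, ← pow_mul, ← pow_mul, ← pow_mul, mul_comm (j : ℕ) e, mul_comm (j : ℕ) f]
        ring
      rw [Finset.sum_congr rfl (fun v _ => by rw [h6 v]), sum_psi_three]
      split_ifs <;> simp
    · simp [hw]
  rw [Finset.sum_congr rfl (fun c _ => h5 c), ← Finset.mul_sum, hKQ]
  congr 1
  rw [Finset.sum_boole]
  congr 1
  rw [Set.ncard_eq_toFinset_card']
  congr 1
  ext c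
  simp

end Pool.Agent.Run7.h59.WD
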